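import Mathlib
import Pool.Agent.Lib.MP_712a2d_co.Main

namespace Pool.Agent.Results.MP_712a2d_co.CoinPlacement

open Finset Pool.Agent.Lib.MP_712a2d_co

/-- **Generalized n-queens coin placement (Duponcheel's question), full positive answer.**
For every `n ≥ 4` and every `0 ≤ c ≤ n` there is a set `S` of exactly `n * c` cells of the
`n × n` board (cells `(i,j)` with `i, j ∈ {0, …, n-1}`) such that every row, every column, every
diagonal `i + j = k` and every diagonal `i - j = d` contains at most `c` cells of `S`. -/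
theorem result (n c : ℕ) (hn : 4 ≤ n) (hc : c ≤ n) :
    ∃ S : Finset (Fin n × Fin n),
      S.card = n * c ∧
      (∀ a : Fin n, (S.filter (fun x => x.1 = a)).card ≤ c) ∧
      (∀ b : Fin n, (S.filter (fun x => x.2 = b)).card ≤ c) ∧
      (∀ k : ℕ, (S.filter (fun x => (x.1 : ℕ) + (x.2 : ℕ) = k)).card ≤ c) ∧
      (∀ d : ℤ, (S.filter (fun x => ((x.1 : ℕ) : ℤ) - ((x.2 : ℕ) : ℤ) = d)).card ≤ c) := by
  classical
  obtain ⟨T, hT⟩ := ex_all n c hn hc
  let φ : Fin n × Fin n → ℤ × ℤ := fun x => (((x.1 : ℕ) : ℤ), ((x.2 : ℕ) : ℤ))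
  have hφ : Function.Injective φ := by
    intro x y hxy
    have h1 : ((x.1 : ℕ) : ℤ) = ((y.1 : ℕ) : ℤ) := congrArg Prod.fst hxy
    have h2 : ((x.2 : ℕ) : ℤ) = ((y.2 : ℕ) : ℤ) := congrArg Prod.snd hxy
    ext
    · exact_mod_cast h1
    · exact_mod_cast h2
  have key : ∀ (P : Fin n × Fin n → Prop) (Q : ℤ × ℤ → Prop) [DecidablePred P]
      [DecidablePred Q], (∀ x, P x ↔ Q (φ x)) →
      ((univ.filter (fun x => φ x ∈ T)).filter P).card = (T.filter Q).card := by
    intro P Q _ _ hPQ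
    rw [← Finset.card_image_of_injective _ hφ]
    congr 1
    ext y
    simp only [mem_image, mem_filter, mem_univ, true_and]
    constructor
    · rintro ⟨x, ⟨h1, h2⟩, rfl⟩
      exact ⟨h1, (hPQ x).1 h2⟩
    · rintro ⟨h1, h2⟩
      have hm := hT.mem y h1
      have e1 : ((y.1.toNat : ℕ) : ℤ) = y.1 := Int.toNat_of_nonneg hm.1.1
      have e2 : ((y.2.toNat : ℕ) : ℤ) = y.2 := Int.toNat_of_nonneg hm.2.1
      have hx : φ (⟨y.1.toNat, by omega⟩, ⟨y.2.toNat, by omega⟩) = y := by
        ext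
        · exact e1
        · exact e2
      refine ⟨(⟨y.1.toNat, by omega⟩, ⟨y.2.toNat, by omega⟩), ⟨?_, ?_⟩, hx⟩
      · rw [hx]; exact h1
      · rw [hPQ, hx]; exact h2
  have hrow : ∀ a : Fin n,
      ((univ.filter (fun x => φ x ∈ T)).filter (fun x => x.1 = a)).card = c := by
    intro a
    rw [key (fun x => x.1 = a) (fun y => y.1 = ((a : ℕ) : ℤ))]
    · exact hT.row _ (by omega) (by have := a.2; omega)
    · intro x
      constructor
      · intro h; rw [← h]
      · intro h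
        have h' : ((x.1 : ℕ) : ℤ) = ((a : ℕ) : ℤ) := h
        exact Fin.ext (by exact_mod_cast h')
  refine ⟨univ.filter (fun x => φ x ∈ T), ?_, ?_, ?_, ?_, ?_⟩
  · rw [Finset.card_eq_sum_card_fiberwise (f := Prod.fst) (t := univ)
      (fun x _ => Finset.mem_coe.2 (mem_univ _))]
    rw [Finset.sum_congr rfl (fun a _ => hrow a)]
    simp
  · intro a
    exact (hrow a).le
  · intro b
    rw [key (fun x => x.2 = b) (fun y => y.2 = ((b : ℕ) : ℤ))]
    · exact hT.col _
    · intro x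
      constructor
      · intro h; rw [← h]
      · intro h
        have h' : ((x.2 : ℕ) : ℤ) = ((b : ℕ) : ℤ) := h
        exact Fin.ext (by exact_mod_cast h')
  · intro k
    rw [key (fun x => (x.1 : ℕ) + (x.2 : ℕ) = k) (fun y => y.1 + y.2 = (k : ℤ))]
    · exact hT.dg _
    · intro x
      show (x.1 : ℕ) + (x.2 : ℕ) = k ↔ ((x.1 : ℕ) : ℤ) + ((x.2 : ℕ) : ℤ) = (k : ℤ)
      omega
  · intro d
    rw [key (fun x => ((x.1 : ℕ) : ℤ) - ((x.2 : ℕ) : ℤ) = d) (fun y => y.1 - y.2 = d)]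
    · exact hT.ad _
    · intro x
      exact Iff.rfl

end Pool.Agent.Results.MP_712a2d_co.CoinPlacement
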